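import Mathlib
import Pool.Agent.helper60.POS.Defs
import Pool.Agent.helper12.POS.A
import Pool.Agent.helper91.POS.C

set_option autoImplicit false

/-!
# Module F: the generic set for the Chang model
-/

open Cardinal Order

namespace Pool.Agent.helper60.POS

open Pool.Agent.helper60.FcU

section F

variable {ι Ω : Type} [LinearOrder ι] [WellFoundedLT ι] {D : ι → Ω → ℕ → Set (Cnd ι Ω)}

theorem star {K L R : Type} [Preorder R] (hD : Book D) (hΩ : #Ω = ℵ₁) (kj : ℕ → Cardinal.{0})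
    (U : K → L → Pos D × R → Prop) (hU : ∀ x y, Reg (U x y)) (p₀ : Pos D) (r : R)
    (N : Set L) (Z : Set (Set K)) (hN : #N = ℵ₁) (hZ : Z.Countable)
    (h : ∀ F : Finset L, (∀ y ∈ F, y ∈ N) → ∀ j, ∀ q ≤ p₀, ∃ q' ≤ q, ∃ Y ∈ Z, kj j ≤ #Y ∧
      ∀ x ∈ Y, ∀ y ∈ F, U x y (q', r)) :
    ∃ (i : ι) (y : ℕ → Set K) (b : Ω → L), Function.Injective b ∧ (∀ n, y n ∈ Z) ∧
      (∀ a, b a ∈ N) ∧
      (∀ s ≤ (p₀, r), ∀ j, ∃ s' ≤ s, ∃ n ∈ s'.1.raw.s i, kj j ≤ #(y n)) ∧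
      ∀ (a : Ω) (n : ℕ) (s s' : Pos D × R), s ≤ (p₀, r) → s' ≤ s → a ∈ s.1.raw.F i →
        n ∉ s.1.raw.s i → n ∈ s'.1.raw.s i → ∀ x ∈ y n, U x (b a) s' := by
  classical
  -- an enumeration of `Z`
  have hZne : Z.Nonempty := by
    obtain ⟨q', -, Y, hY, -⟩ := h ∅ (by simp) 0 p₀ le_rfl
    exact ⟨Y, hY⟩
  obtain ⟨y, hy⟩ := hZ.exists_eq_range hZne
  have hyZ : ∀ n, y n ∈ Z := fun n => by rw [hy]; exact Set.mem_range_self n
  -- an enumeration of `N`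
  obtain ⟨e⟩ : Nonempty (Ω ≃ N) := Cardinal.eq.1 (hΩ.trans hN.symm)
  let b : Ω → L := fun a => (e a : L)
  have hb : Function.Injective b := Subtype.val_injective.comp e.injective
  -- the predense sets
  let T : Ω → ℕ → Set (Pos D) := fun a n => {p | ∀ x ∈ y n, U x (b a) (p, r)}
  have hT : ∀ a n, ∀ p ∈ T a n, ∀ q ≤ p, q ∈ T a n := fun a n p hp q hq x hx =>
    (hU x (b a)).mono (Prod.mk_le_mk.2 ⟨hq, le_rfl⟩) (hp x hx)
  choose K' hK'T hK'c hK' using fun a n => exists_predense (Pos.ccc D) (T a n) (hT a n)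
  obtain ⟨i, hi, hbel⟩ := hD K' hK'c
  refine ⟨i, y, b, hb, hyZ, fun a => (e a).2, ?_, ?_⟩
  · intro s hs j
    obtain ⟨q', hq', Y, hY, hYj, hYU⟩ := h ((s.1.raw.F i).image b) (by
      intro z hz
      obtain ⟨a, -, rfl⟩ := Finset.mem_image.1 hz
      exact (e a).2) j s.1 hs.1
    rw [hy] at hY
    obtain ⟨n, rfl⟩ := hY
    obtain ⟨p', hp', hn⟩ := Pos.add_num (i := i) (n := n) hq' (by
      intro a ha q hq
      have hqT : q ∈ T a n := hT a n q' (fun x hx => hYU x hx (b a)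
        (Finset.mem_image_of_mem b ha)) q hq
      obtain ⟨p, hp, t, htq, htp⟩ := hK' a n q hqT
      refine ⟨t, htq, p, ?_, hbel a n p hp, htp⟩
      rw [hi]
      exact hp)
    exact ⟨(p', s.2), Prod.mk_le_mk.2 ⟨hp', le_rfl⟩, n, hn, hYj⟩
  · intro a n s s' hs hs' ha hn hn' x hx
    refine (hU x (b a)).dense fun t ht => ?_
    obtain ⟨q', hq', d, hd, -, hqd⟩ := Pos.force hs'.1 ha hn hn' t.1 ht.1
    rw [hi] at hd
    refine ⟨(q', t.2), Prod.mk_le_mk.2 ⟨hq', le_rfl⟩, ?_⟩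
    exact (hU x (b a)).mono (Prod.mk_le_mk.2 ⟨hqd, (ht.2.trans hs'.2).trans hs.2⟩)
      (hK'T a n hd x hx)

end F

end Pool.Agent.helper60.POS
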